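import Pool.Agent.H44.AR.BasicA

/-!
# All arities, part A: tuples in arbitrary orders
-/

set_option autoImplicit false

namespace Pool.Agent.H56.AR

open Pool.Agent.H68.BP Pool.Agent.H58.SF Pool.Agent.H53.GC Pool.Agent.H53.NR Pool.Agent.H53.GR
  Pool.Agent.H57.AR Pool.Agent.H44.AR
open Pool.Agent.H57.SO (Pal Col vt Sb FBl)
open Pool.Agent.H57.EQ (Cx)

theorem pf_ORD (hSYN : T_SYN) : T_ORD := by
  intro ρ V _ 𝔹 M hUn W R _ _ x rk hrk
  classical
  have hfin : Finite (Set.range x) := Set.finite_range x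
  let rk' : Set.range x → R := fun n => rk n.2.choose
  have hrk' : ∀ a, rk' ⟨x a, a, rfl⟩ = rk a := by
    intro a
    have h1 : x (Exists.choose (⟨a, rfl⟩ : ∃ b, x b = x a)) = x a :=
      Exists.choose_spec (⟨a, rfl⟩ : ∃ b, x b = x a)
    exact (hrk _ _).2 h1
  have hinj : Function.Injective rk' := by
    rintro ⟨_, a, rfl⟩ ⟨_, b, rfl⟩ h
    rw [hrk', hrk'] at h
    exact Subtype.ext ((hrk a b).1 h)
  obtain ⟨f, hf1, hf2⟩ := hSYN ρ V 𝔹 M hUn (Set.range x) R rk' (fun n => n.1) (fun _ _ => True)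
    hinj (fun _ _ _ => trivial)
  have hfi : ∀ n m, f n = f m ↔ n = m := by
    intro n m
    constructor
    · intro h
      rcases lt_trichotomy (rk' n) (rk' m) with h1 | h1 | h1
      · exact absurd h ((hf1 n m).2 h1).ne
      · exact hinj h1
      · exact absurd h ((hf1 m n).2 h1).ne'
    · exact fun h => by rw [h]
  refine ⟨fun a => f ⟨x a, a, rfl⟩, ?_, fun a b => ?_⟩
  · unfold tp
    refine Prod.ext ?_ ?_
    · funext a b
      show (f ⟨x a, a, rfl⟩ = f ⟨x b, b, rfl⟩) = (x a = x b)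
      rw [hfi, Subtype.mk.injEq]
    · funext l z
      refine propext ?_
      show 𝔹 l (fun i => f ⟨x (z i), z i, rfl⟩) ↔ 𝔹 l (fun i => x (z i))
      rw [hf2 l (fun i => ⟨x (z i), z i, rfl⟩)]
      constructor
      · exact fun h => h.1
      · intro h
        refine ⟨h, fun i j => ?_⟩
        by_cases e : x (z i) = x (z j)
        · exact Or.inl (Subtype.ext e)
        · exact Or.inr ⟨trivial, e⟩
  · show f ⟨x a, a, rfl⟩ < f ⟨x b, b, rfl⟩ ↔ rk a < rk b
    rw [hf1, hrk', hrk']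

end Pool.Agent.H56.AR
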