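import Pool.Agent.H57.AR.Targets
import Pool.Agent.H11.GR.UNI

/-!
# All reducts, all arities: finite structures with an order given by ranks
-/

set_option autoImplicit false

namespace Pool.Agent.H56.AR

open Pool.Agent.H68.BP Pool.Agent.H58.SF Pool.Agent.H53.GC Pool.Agent.H53.NR Pool.Agent.H53.GR
  Pool.Agent.H57.AR

theorem pf_CFR : T_CFR := by
  intro ρ V _ 𝔹 M hUn W R _ _ rk hrk 𝕏 hX
  let iL : LinearOrder W := LinearOrder.lift' rk hrk
  obtain ⟨f, hf, he⟩ := Pool.Agent.H11.GR.pf_UNI ρ V 𝔹 M hUn W 𝕏 hX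
  refine ⟨f, fun x y => ?_, ?_⟩
  · exact hf.lt_iff_lt
  · funext l z
    exact propext (he.2 l z).symm

end Pool.Agent.H56.AR
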