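import Pool.Agent.H57.AR.Targets
import Pool.Agent.H44.SO.Basic

/-!
# All reducts, all arities: two determining positions give local injections
-/

set_option autoImplicit false
set_option linter.unusedVariables false

namespace Pool.Agent.H56.AR

open Pool.Agent.H68.BP Pool.Agent.H58.SF Pool.Agent.H53.GC Pool.Agent.H53.NR Pool.Agent.H53.GR
  Pool.Agent.H57.AR
open Pool.Agent.H57.SO (Pal Col vt Exa Sb FBl Sbn Bh fib sigF Same Uni Can Stp)
open Pool.Agent.H44.SO (ZS JS Loc OfT LInj sig0 str0 B2)
open Pool.Agent.H44.EQ (BinPol sel kap)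
open Pool.Agent.H57.EQ (Cx)
open Function
open Classical

theorem pf_TWOR (hSYR : T_SYR) (hCMPR : T_CMPR) : T_TWOR := by
  intro σ ρ V S X _ P 𝔸 𝔹 M c hs h hh s κ J hJ l l' hl hl' hne n q hq
  have hcol : Col P c := hs.lnk.col
  obtain ⟨f, hf1, hf0, hf2, hf3⟩ := hSYR σ ρ V S X P 𝔸 𝔹 M c hs (Set.range κ × Fin n) (ℕ ×ₗ Fin n)
    (fun w => toLex ((w.1 : ℕ), w.2)) (fun w => q w.2) (fun w w' => w.1 = w'.1)
    (by
      intro w w' hw
      have h1 : ((w.1 : ℕ), w.2) = ((w'.1 : ℕ), w'.2) := toLex.injective hw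
      have h2 := congrArg Prod.fst h1
      have h3 := congrArg Prod.snd h1
      exact Prod.ext (Subtype.ext h2) h3)
    (fun x y e => e.symm)
  have lt1 : ∀ (i j : Set.range κ) (a b : Fin n), (i : ℕ) < j → f (i, a) < f (j, b) := by
    intro i j a b hij
    rw [hf1]
    exact Prod.Lex.toLex_lt_toLex.2 (Or.inl hij)
  have inj : ∀ (x y : Set.range κ × Fin n), f x = f y → x = y := by
    intro x y hxy
    rcases lt_trichotomy (toLex ((x.1 : ℕ), x.2)) (toLex ((y.1 : ℕ), y.2)) with h1 | h1 | h1
    · exact absurd hxy (ne_of_lt ((hf1 x y).2 h1))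
    · have h2 : ((x.1 : ℕ), x.2) = ((y.1 : ℕ), y.2) := toLex.injective h1
      have h3 := congrArg Prod.fst h2
      have h4 := congrArg Prod.snd h2
      exact Prod.ext (Subtype.ext h3) h4
    · exact absurd hxy.symm (ne_of_lt ((hf1 y x).2 h1))
  have tpf : ∀ x, vt P c (f x) = vt P c (q x.2) := by
    intro x
    unfold vt
    rw [hf2]
  have free : ∀ (x y : Set.range κ × Fin n), x.1 ≠ y.1 →
      c (f x) (f y) = Sum.inr (P.fr (vt P c (f x)) (vt P c (f y))) := by
    intro x y hxy
    rw [(hf3 x y (fun e => hxy (congrArg Prod.fst e))).2 (fun e => hxy e.1), tpf x, tpf y]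
  -- the blocks
  let pr : Fin n × Fin n → Fin 6 → Fin n := fun p m => if κ m = κ l then p.1 else p.2
  let z : Fin n × Fin n → Fin 6 → V := fun p m => f (⟨κ m, m, rfl⟩, pr p m)
  have prc : ∀ (p : Fin n × Fin n) (m m' : Fin 6), κ m = κ m' → pr p m = pr p m' := by
    intro p m m' e
    simp only [pr, e]
  have zc : ∀ (p : Fin n × Fin n) (m m' : Fin 6), κ m = κ m' → z p m = z p m' := by
    intro p m m' e
    simp only [z]
    rw [prc p m m' e]
    have e3 : (⟨κ m, m, rfl⟩ : Set.range κ) = ⟨κ m', m', rfl⟩ := Subtype.ext e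
    rw [e3]
  have two : ∀ p p' : Fin n × Fin n, Two 𝔹 (Sum.elim (z p) (z p')) := by
    intro p p' k w hw
    let N : Fin 6 ⊕ Fin 6 → Set.range κ × Fin n :=
      Sum.elim (fun m => (⟨κ m, m, rfl⟩, pr p m)) (fun m => (⟨κ m, m, rfl⟩, pr p' m))
    have hN : ∀ y, Sum.elim (z p) (z p') y = f (N y) := by
      rintro (m | m) <;> rfl
    have hw' : 𝔹 k (fun i => f (N (w i))) := by
      have e : (fun i => Sum.elim (z p) (z p') (w i)) = fun i => f (N (w i)) :=
        funext fun i => hN _
      rw [← e]
      exact hw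
    have h1 := ((hf0 k (fun i => N (w i))).1 hw').2
    have h2 : ∀ i j, (N (w i)).1 = (N (w j)).1 := by
      intro i j
      rcases h1 i j with e | e
      · exact congrArg Prod.fst e
      · exact e.1
    let ps : Fin 6 ⊕ Fin 6 → Fin 6 := Sum.elim id id
    have hps : ∀ y, ((N y).1 : ℕ) = κ (ps y) := by
      rintro (m | m) <;> rfl
    by_cases hk : Nonempty (Fin (ρ.ar k))
    · obtain ⟨i0⟩ := hk
      refine ⟨Sum.inl (ps (w i0)), Sum.inr (ps (w i0)), fun i => ?_⟩
      have h3 : κ (ps (w i)) = κ (ps (w i0)) := by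
        rw [← hps, ← hps, h2 i i0]
      cases hwi : w i with
      | inl m =>
        left
        rw [hwi] at h3
        exact zc p _ _ h3
      | inr m =>
        right
        rw [hwi] at h3
        exact zc p' _ _ h3
    · exact ⟨Sum.inl 0, Sum.inl 0, fun i => absurd ⟨i⟩ hk⟩
  obtain ⟨δ, hδ, hδ'⟩ := hCMPR σ ρ V S X P 𝔸 𝔹 M c hs h hh n q (fun m p => q (pr p m)) z
    (by
      intro m
      by_cases e : κ m = κ l
      · refine ⟨?_, ?_, ?_⟩
        · intro k a b ha hb
          simpa only [pr, e, if_true] using ha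
        · intro a b hab
          simp only [pr, e, if_true]
        · intro a b a' b' _ _ _ haa hbb he
          simp only [pr, e, if_true] at he
          exact haa (hq he)
      · refine ⟨?_, ?_, ?_⟩
        · intro k a b ha hb
          simpa only [pr, e, if_false] using hb
        · intro a b hab
          simp only [pr, e, if_false]
          exact hab.symm
        · intro a b a' b' _ _ _ haa hbb he
          simp only [pr, e, if_false] at he
          exact hbb (hq he))
    (by
      intro m
      unfold tp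
      refine Prod.ext ?_ ?_
      · funext p p'
        refine propext ?_
        show f (⟨κ m, m, rfl⟩, pr p m) = f (⟨κ m, m, rfl⟩, pr p' m) ↔ q (pr p m) = q (pr p' m)
        constructor
        · intro e
          exact congrArg q (congrArg Prod.snd (inj _ _ e))
        · intro e
          rw [hq e]
      · funext k y
        refine propext ?_
        show 𝔹 k (fun i => f (⟨κ m, m, rfl⟩, pr (y i) m)) ↔ 𝔹 k (fun i => q (pr (y i) m))
        rw [hf0 k (fun i => ((⟨κ m, m, rfl⟩ : Set.range κ), pr (y i) m))]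
        constructor
        · exact fun h => h.1
        · intro h
          refine ⟨h, fun i j => ?_⟩
          by_cases e : pr (y i) m = pr (y j) m
          · exact Or.inl (Prod.ext rfl e)
          · exact Or.inr ⟨rfl, fun e' => e (hq e')⟩)
    (by
      intro p m m' hmm
      apply free
      intro e
      have e' : κ m = κ m' := congrArg Subtype.val e
      exact hmm (zc p m m' e'))
    two
    (by
      intro s' p p' _ _ h1 h2 m m' he
      have h3 := inj _ _ he
      have h4 : κ m = κ m' := congrArg Subtype.val (congrArg Prod.fst h3)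
      have h5 : pr p m = pr p' m' := congrArg Prod.snd h3
      rw [← prc p' m m' h4] at h5
      by_cases e : κ m = κ l
      · simp only [pr, e, if_true] at h5
        exact h1 h5
      · simp only [pr, e, if_false] at h5
        exact h2 h5)
  refine ⟨δ, hδ, fun p p' hp hp' e => ?_⟩
  have ty : ∀ (p : Fin n × Fin n), OfT P c q s p → ∀ m, vt P c (z p m) = s := by
    intro p hp m
    simp only [z]
    rw [tpf]
    by_cases e : κ m = κ l
    · simp only [pr, e, if_true]
      exact hp.1
    · simp only [pr, e, if_false]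
      exact hp.2
  have fr : ∀ (p p' : Fin n × Fin n), OfT P c q s p → OfT P c q s p' → ∀ m m', κ m < κ m' →
      c (z p m) (z p' m') = Sum.inr (P.fr s s) := by
    intro p p' hp hp' m m' hmm
    have h1 := free (⟨κ m, m, rfl⟩, pr p m) (⟨κ m', m', rfl⟩, pr p' m')
      (fun e => hmm.ne (congrArg Subtype.val e))
    have h2 := ty p hp m
    have h3 := ty p' hp' m'
    simp only [z] at h2 h3 ⊢
    rw [h1, h2, h3]
  have za : ZS P c s κ (z p) (z p') := by
    refine ⟨fun m => ⟨(Pool.Agent.H44.SO.Col.vt_iff hcol).1 (ty p hp m),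
      (Pool.Agent.H44.SO.Col.vt_iff hcol).1 (ty p' hp' m)⟩,
      fun m m' e => ⟨zc p m m' e, zc p' m m' e⟩, fun m m' e => ?_, fun m m' e => ?_⟩
    · exact ⟨lt1 _ _ _ _ e, lt1 _ _ _ _ e, lt1 _ _ _ _ e, lt1 _ _ _ _ e⟩
    · exact ⟨fr p p hp hp m m' e, fr p p' hp hp' m m' e, fr p' p hp' hp m m' e,
        fr p' p' hp' hp' m m' e⟩
  have h1 := (hJ (z p) (z p') za (two p p')).1 ((hδ' p p').1 e)
  have h2 := congrArg Prod.snd (inj _ _ (h1 l hl))
  have h3 := congrArg Prod.snd (inj _ _ (h1 l' hl'))
  have hne' : ¬ κ l' = κ l := fun h => hne h.symm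
  simp only [pr, if_true] at h2
  simp only [pr, hne', if_false] at h3
  exact Prod.ext h2 h3

end Pool.Agent.H56.AR
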